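import Pool.Agent.H83.UE.Targets3
import Pool.Agent.H11.UDA.REC

/-!
# RCE: the weighted area recursion
-/

set_option autoImplicit false

open Polynomial MeasureTheory Filter Topology Set
open scoped OnePoint ComplexConjugate ComplexOrder Laplacian ENNReal Nat

namespace Pool.Agent.H63.UDB

open Pool.Agent.H83.UE
open Pool.Agent.H11.UDA (cd_nonneg cd_le_two vol_ball base tail meas_le)

theorem omh_nonneg (E : Finset (OnePoint ℂ)) (z : ℂ × ℂ) : 0 ≤ omh E z :=
  Finset.prod_nonneg fun _ _ => cd_nonneg _ _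

/-- the height -/
noncomputable def ht (E : Finset (OnePoint ℂ)) (z : ℂ × ℂ) : ℝ := max 0 (-Real.log (omh E z))

theorem ht_nonneg (E : Finset (OnePoint ℂ)) (z : ℂ × ℂ) : 0 ≤ ht E z := le_max_left _ _

theorem ht_le_abs (E : Finset (OnePoint ℂ)) (z : ℂ × ℂ) : ht E z ≤ |Real.log (omh E z)| :=
  max_le (abs_nonneg _) (neg_le_abs _)

theorem neg_log_le_ht (E : Finset (OnePoint ℂ)) (z : ℂ × ℂ) : -Real.log (omh E z) ≤ ht E z :=
  le_max_right _ _

theorem iter_ne {H F₀ : ℂ × ℂ → ℂ × ℂ} (hH0 : ∀ w, w ≠ 0 → H w ≠ 0)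
    (hF0 : ∀ w, w ≠ 0 → F₀ w ≠ 0) (j : ℕ) (w : ℂ × ℂ) (hw : w ≠ 0) : H^[j] (F₀ w) ≠ 0 := by
  induction j with
  | zero => exact hF0 w hw
  | succ j ih =>
    rw [Function.iterate_succ_apply']
    exact hH0 _ ih

open Classical in
theorem fam {D D₀ : ℕ} {H F₀ : ℂ × ℂ → ℂ × ℂ} {E : Finset (OnePoint ℂ)} (hD : 3 ≤ D)
    (hH0 : ∀ w, w ≠ 0 → H w ≠ 0) (hF0 : ∀ w, w ≠ 0 → F₀ w ≠ 0)
    {c c₀ : ℝ} (hc : 0 < c) (hc1 : c ≤ 1) (hc₀ : 0 < c₀)
    (hW : ∀ z : ℂ × ℂ, z ≠ 0 → omh E z ≠ 0 → ∃ x : Fin D → ℂ × ℂ,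
      (∀ i, x i ≠ 0 ∧ omh E (x i) ≠ 0 ∧ c * omh E z ≤ omh E (x i) ^ D) ∧
      ∀ w : ℂ × ℂ, w ≠ 0 → ∃ i, c * omh E z * cd w (x i) ^ (D - 1) ≤ cd (H w) z)
    (hL : ∀ z : ℂ × ℂ, z ≠ 0 → ∃ x : Fin D₀ → ℂ × ℂ, (∀ i, x i ≠ 0) ∧
      ∀ w : ℂ × ℂ, w ≠ 0 → ∃ i, c₀ * cd w (x i) ^ D₀ ≤ cd (F₀ w) z) :
    ∀ (j : ℕ) (z : ℂ × ℂ), z ≠ 0 → omh E z ≠ 0 → ∃ Y : Finset (ℂ × ℂ), Y.card ≤ D ^ j * D₀ ∧
      (∀ y ∈ Y, y ≠ 0) ∧ ∀ w : ℂ × ℂ, w ≠ 0 → ∃ y ∈ Y,
        Real.exp (-((-Real.log c₀ + D * (-Real.log c)) * ((D : ℝ) - 1) ^ j -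
          D * (-Real.log c) + D * ht E z)) * cd w y ^ (D₀ * (D - 1) ^ j) ≤
            cd (H^[j] (F₀ w)) z := by
  have hDr : (3 : ℝ) ≤ D := by exact_mod_cast hD
  set L : ℝ := -Real.log c with hLdef
  set a : ℝ := -Real.log c₀ + D * L with ha
  have hL0 : 0 ≤ L := by
    rw [hLdef]
    have := Real.log_nonpos hc.le hc1
    linarith
  intro j
  induction j with
  | zero =>
    intro z hz _
    obtain ⟨x, hx0, hx⟩ := hL z hz
    refine ⟨Finset.univ.image x, ?_, ?_, ?_⟩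
    · refine Finset.card_image_le.trans ?_
      simp
    · intro y hy
      obtain ⟨i, -, rfl⟩ := Finset.mem_image.1 hy
      exact hx0 i
    · intro w hw
      obtain ⟨i, hi⟩ := hx w hw
      refine ⟨x i, Finset.mem_image_of_mem _ (Finset.mem_univ i), ?_⟩
      rw [pow_zero, pow_zero, mul_one, mul_one, Function.iterate_zero, id_eq]
      refine le_trans (mul_le_mul_of_nonneg_right ?_ (pow_nonneg (cd_nonneg _ _) _)) hi
      have h1 : -(a - D * L + D * ht E z) ≤ Real.log c₀ := by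
        rw [ha]
        have := mul_nonneg (by linarith : (0 : ℝ) ≤ D) (ht_nonneg E z)
        linarith
      calc Real.exp (-(a - D * L + D * ht E z)) ≤ Real.exp (Real.log c₀) :=
            Real.exp_le_exp.2 h1
        _ = c₀ := Real.exp_log hc₀
  | succ j ih =>
    intro z hz hωz
    obtain ⟨x, hx, hxw⟩ := hW z hz hωz
    choose Y hY1 hY2 hY3 using fun i => ih (x i) (hx i).1 (hx i).2.1
    have hω : 0 < omh E z := lt_of_le_of_ne (omh_nonneg E z) (Ne.symm hωz)
    refine ⟨Finset.univ.biUnion Y, ?_, ?_, ?_⟩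
    · refine (Finset.card_biUnion_le_card_mul _ _ (D ^ j * D₀) (fun i _ => hY1 i)).trans ?_
      rw [Finset.card_univ, Fintype.card_fin, pow_succ]
      apply le_of_eq; ring
    · intro y hy
      obtain ⟨i, -, hi⟩ := Finset.mem_biUnion.1 hy
      exact hY2 i y hi
    · intro w hw
      set u : ℂ × ℂ := H^[j] (F₀ w) with hu
      have hu0 : u ≠ 0 := iter_ne hH0 hF0 j w hw
      obtain ⟨i, hi⟩ := hxw u hu0
      obtain ⟨y, hy, hyi⟩ := hY3 i w hw
      refine ⟨y, Finset.mem_biUnion.2 ⟨i, Finset.mem_univ i, hy⟩, ?_⟩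
      rw [Function.iterate_succ_apply', ← hu]
      refine le_trans ?_ hi
      set m : ℝ := ((D : ℝ) - 1) ^ j with hm
      set Ai : ℝ := a * m - D * L + D * ht E (x i) with hAi
      have h1 : (Real.exp (-Ai) * cd w y ^ (D₀ * (D - 1) ^ j)) ^ (D - 1) ≤
          cd u (x i) ^ (D - 1) := by
        refine pow_le_pow_left₀ ?_ hyi _
        have := cd_nonneg w y
        positivity
      have hcω : Real.exp (-(L + ht E z)) ≤ c * omh E z := by
        rw [← Real.le_log_iff_exp_le (mul_pos hc hω), Real.log_mul hc.ne' hω.ne']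
        have := neg_log_le_ht E z
        linarith
      have hht : D * ht E (x i) ≤ L + ht E z := by
        have hωx : 0 < omh E (x i) := lt_of_le_of_ne (omh_nonneg E _) (Ne.symm (hx i).2.1)
        have h2 := (hx i).2.2
        have h3 := Real.log_le_log (mul_pos hc hω) h2
        rw [Real.log_mul hc.ne' hω.ne', Real.log_pow] at h3
        have h4 : (D : ℝ) * ht E (x i) = max 0 (-(D * Real.log (omh E (x i)))) := by
          rw [ht, mul_max_of_nonneg _ _ (by linarith), mul_zero]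
          congr 1
          ring
        rw [h4]
        have h5 := neg_log_le_ht E z
        have h6 := ht_nonneg E z
        apply max_le
        · linarith
        · linarith
      have hexp : -(a * ((D : ℝ) - 1) ^ (j + 1) - D * L + D * ht E z) ≤
          -(L + ht E z) + ((D : ℝ) - 1) * (-Ai) := by
        rw [pow_succ, ← hm, hAi]
        have h2 := mul_le_mul_of_nonneg_left hht (by linarith : (0 : ℝ) ≤ (D : ℝ) - 1)
        have h3 : (D : ℝ) * L ≤ ((D : ℝ) - 2) * (D * L) := by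
          have h4 : 0 ≤ (D : ℝ) * L := by positivity
          have h5 := mul_le_mul_of_nonneg_right (by linarith : (1 : ℝ) ≤ (D : ℝ) - 2) h4
          linarith
        linarith
      have hcast : (((D - 1 : ℕ) : ℕ) : ℝ) = (D : ℝ) - 1 := by
        rw [Nat.cast_sub (by omega), Nat.cast_one]
      have h2 : (Real.exp (-Ai) * cd w y ^ (D₀ * (D - 1) ^ j)) ^ (D - 1) =
          Real.exp (((D : ℝ) - 1) * (-Ai)) * cd w y ^ (D₀ * (D - 1) ^ (j + 1)) := by
        rw [mul_pow, ← Real.exp_nat_mul, hcast, ← pow_mul]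
        congr 2
        rw [pow_succ]; ring
      calc Real.exp (-(a * ((D : ℝ) - 1) ^ (j + 1) - D * L + D * ht E z)) *
            cd w y ^ (D₀ * (D - 1) ^ (j + 1))
          ≤ Real.exp (-(L + ht E z) + ((D : ℝ) - 1) * (-Ai)) *
            cd w y ^ (D₀ * (D - 1) ^ (j + 1)) :=
            mul_le_mul_of_nonneg_right (Real.exp_le_exp.2 hexp)
              (pow_nonneg (cd_nonneg _ _) _)
        _ = Real.exp (-(L + ht E z)) *
            (Real.exp (-Ai) * cd w y ^ (D₀ * (D - 1) ^ j)) ^ (D - 1) := by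
            rw [h2, Real.exp_add]; ring
        _ ≤ c * omh E z * cd u (x i) ^ (D - 1) := by
            refine mul_le_mul hcω h1 ?_ (by positivity)
            have := cd_nonneg w y
            positivity

theorem cd_meas' {H F₀ : ℂ × ℂ → ℂ × ℂ} (hH : Continuous H) (hF : Continuous F₀) (j : ℕ)
    (z : ℂ × ℂ) : Measurable fun x : ℂ => cd (H^[j] (F₀ (x, 1))) z := by
  have hc : Continuous fun x : ℂ => H^[j] (F₀ (x, 1)) :=
    (hH.iterate j).comp (hF.comp (continuous_id.prodMk continuous_const))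
  unfold cd wd
  exact ((hc.fst.mul continuous_const).sub (hc.snd.mul continuous_const)).norm.measurable.div
    (hc.norm.mul continuous_const).measurable

theorem pf_RCE : T_RCE := by
  intro D D₀ H F₀ E hD hD₀ hHc hH0 hFc hF0 hWW hLL R
  obtain ⟨c₁, hc₁, hW1⟩ := hWW
  obtain ⟨c₂, hc₂, hL1⟩ := hLL
  obtain ⟨c, hc⟩ : ∃ c : ℝ, c = min c₁ 1 := ⟨_, rfl⟩
  obtain ⟨c₀, hc₀⟩ : ∃ c₀ : ℝ, c₀ = min c₂ 1 := ⟨_, rfl⟩
  have hc0 : 0 < c := by rw [hc]; exact lt_min hc₁ one_pos
  have hc1 : c ≤ 1 := by rw [hc]; exact min_le_right _ _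
  have hcc : c ≤ c₁ := by rw [hc]; exact min_le_left _ _
  have hc00 : 0 < c₀ := by rw [hc₀]; exact lt_min hc₂ one_pos
  have hc01 : c₀ ≤ 1 := by rw [hc₀]; exact min_le_right _ _
  have hc0c : c₀ ≤ c₂ := by rw [hc₀]; exact min_le_left _ _
  have hDr : (3 : ℝ) ≤ D := by exact_mod_cast hD
  have hD₀r : (1 : ℝ) ≤ D₀ := by exact_mod_cast hD₀
  have hfam := fam (E := E) hD hH0 hF0 hc0 hc1 hc00 (by
    intro z hz hωz
    obtain ⟨x, hx, hw⟩ := hW1 z hz hωz
    refine ⟨x, fun i => ⟨(hx i).1, (hx i).2.1, le_trans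
      (mul_le_mul_of_nonneg_right hcc (omh_nonneg E z)) (hx i).2.2⟩, fun w hw0 => ?_⟩
    obtain ⟨i, hi⟩ := hw w hw0
    refine ⟨i, le_trans (mul_le_mul_of_nonneg_right (mul_le_mul_of_nonneg_right hcc
      (omh_nonneg E z)) (pow_nonneg (cd_nonneg _ _) _)) hi⟩) (by
    intro z hz
    obtain ⟨x, hx, hw⟩ := hL1 z hz
    refine ⟨x, hx, fun w hw0 => ?_⟩
    obtain ⟨i, hi⟩ := hw w hw0
    exact ⟨i, (mul_le_mul_of_nonneg_right hc0c (pow_nonneg (cd_nonneg _ _) _)).trans hi⟩)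
  obtain ⟨K, hK0, hK⟩ := base R
  obtain ⟨V, hV⟩ : ∃ V : ℝ, V = Real.pi * (max R 0) ^ 2 := ⟨_, rfl⟩
  have hV0 : 0 ≤ V := by rw [hV]; positivity
  have hVB : volume (Metric.ball (0 : ℂ) R) ≤ ENNReal.ofReal V := by
    rw [hV, ← vol_ball 0 (le_max_right R 0)]
    exact measure_mono (Metric.ball_subset_ball (le_max_left _ _))
  have hl2 : 0 < Real.log 2 := Real.log_pos one_lt_two
  have hlD : 0 ≤ Real.log D := Real.log_nonneg (by linarith)
  have hlD₀ : 0 ≤ Real.log D₀ := Real.log_nonneg hD₀r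
  have hLc : 0 ≤ -Real.log c := by
    have := Real.log_nonpos hc0.le hc1
    linarith
  have hLc0 : 0 ≤ -Real.log c₀ := by
    have := Real.log_nonpos hc00.le hc01
    linarith
  obtain ⟨a, ha⟩ : ∃ a : ℝ, a = -Real.log c₀ + D * (-Real.log c) := ⟨_, rfl⟩
  have ha0 : 0 ≤ a := by
    rw [ha]
    have := mul_nonneg (by linarith : (0 : ℝ) ≤ D) hLc
    linarith
  refine ⟨V * (Real.log 2 + a + D + D₀ * (Real.log D + Real.log D₀ + K)) + D₀,
    by positivity, fun j z hz hωz => ?_⟩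
  obtain ⟨Y, hY1, hY2, hY3⟩ := hfam j z hz hωz
  rw [← ha] at hY3
  obtain ⟨m, hm⟩ : ∃ m : ℝ, m = ((D - 1 : ℕ) : ℝ) ^ j := ⟨_, rfl⟩
  have hcast : (((D - 1 : ℕ) : ℕ) : ℝ) = (D : ℝ) - 1 := by
    rw [Nat.cast_sub (by omega), Nat.cast_one]
  have hm' : ((D : ℝ) - 1) ^ j = m := by rw [hm, hcast]
  rw [hm'] at hY3
  have hm1 : 1 ≤ m := by
    rw [hm]
    exact one_le_pow₀ (by rw [hcast]; linarith)
  obtain ⟨A, hA⟩ : ∃ A : ℝ, A = a * m - D * (-Real.log c) + D * ht E z := ⟨_, rfl⟩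
  rw [← hA] at hY3
  have hht0 : 0 ≤ (D : ℝ) * ht E z := mul_nonneg (by linarith) (ht_nonneg E z)
  have hA0 : 0 ≤ A := by
    rw [hA]
    have h1 : a * 1 ≤ a * m := mul_le_mul_of_nonneg_left hm1 ha0
    rw [mul_one, ha] at h1
    rw [ha]
    linarith
  have hA1 : A ≤ a * m + D * |Real.log (omh E z)| := by
    rw [hA]
    have h1 := mul_le_mul_of_nonneg_left (ht_le_abs E z) (by linarith : (0 : ℝ) ≤ D)
    have h2 := mul_nonneg (by linarith : (0 : ℝ) ≤ D) hLc
    linarith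
  obtain ⟨e, he⟩ : ∃ e : ℝ, e = D₀ * m := ⟨_, rfl⟩
  have he0 : 0 < e := by rw [he]; positivity
  have hen : (((D₀ * (D - 1) ^ j : ℕ)) : ℝ) = e := by
    rw [he, hm]; push_cast; ring
  obtain ⟨N, hN⟩ : ∃ N : ℝ, N = D ^ j * D₀ := ⟨_, rfl⟩
  have hN0 : 0 < N := by rw [hN]; positivity
  have hN1 : 1 ≤ N := by
    rw [hN]
    have h1 : (1 : ℝ) ≤ (D : ℝ) ^ j := one_le_pow₀ (by linarith)
    nlinarith
  have hlN : Real.log N = j * Real.log D + Real.log D₀ := by
    rw [hN, Real.log_mul (by positivity) (by positivity), Real.log_pow]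
  have hlN0 : 0 ≤ Real.log N := Real.log_nonneg hN1
  obtain ⟨s0, hs0⟩ : ∃ s0 : ℝ, s0 = Real.log 2 + A + e / 2 * (Real.log N + K) := ⟨_, rfl⟩
  have hs0l : Real.log 2 ≤ s0 := by
    rw [hs0]
    have : 0 ≤ e / 2 * (Real.log N + K) := by positivity
    linarith
  have hs00 : 0 < s0 := by linarith
  have hmeasf := cd_meas' hHc hFc j z
  -- the distribution function
  have hdist : ∀ s : ℝ, s0 < s → (volume.restrict (Metric.ball (0 : ℂ) R))
      {x | s < |Real.log (cd (H^[j] (F₀ (x, 1))) z)|} ≤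
      ENNReal.ofReal (N * K * Real.exp (2 * A / e) * Real.exp (-(2 / e) * s)) := by
    intro s hs
    have hmeas : MeasurableSet {x : ℂ | s < |Real.log (cd (H^[j] (F₀ (x, 1))) z)|} :=
      measurableSet_lt measurable_const (hmeasf.log.abs)
    rw [Measure.restrict_apply hmeas, inter_comm]
    refine (measure_mono (meas_le (g := fun x => cd (H^[j] (F₀ (x, 1))) z) (fun x => rfl)
      (fun x => cd_nonneg _ _) (fun x => cd_le_two _ _) (by linarith))).trans ?_
    obtain ⟨u, hu⟩ : ∃ u : ℝ, u = Real.exp (-(s - A) / e) := ⟨_, rfl⟩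
    have hu0 : 0 < u := by rw [hu]; positivity
    have hupow : u ^ (D₀ * (D - 1) ^ j) = Real.exp (-(s - A)) := by
      rw [hu, ← Real.exp_nat_mul, hen]
      congr 1
      field_simp
    have hsub : Metric.ball (0 : ℂ) R ∩ {x : ℂ | cd (H^[j] (F₀ (x, 1))) z < Real.exp (-s)} ⊆
        ⋃ y ∈ Y, (Metric.ball (0 : ℂ) R ∩ {x : ℂ | cd (x, 1) y < u}) := by
      rintro x ⟨hxB, hx⟩
      have hx' : cd (H^[j] (F₀ (x, 1))) z < Real.exp (-s) := hx
      have hx1 : ((x, 1) : ℂ × ℂ) ≠ 0 := by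
        intro h
        have := congrArg Prod.snd h
        simp at this
      obtain ⟨y, hy, hyx⟩ := hY3 (x, 1) hx1
      rw [mem_iUnion₂]
      refine ⟨y, hy, hxB, ?_⟩
      by_contra hcon
      rw [Set.mem_ofPred_eq, not_lt] at hcon
      have h1 : u ^ (D₀ * (D - 1) ^ j) ≤ cd (x, 1) y ^ (D₀ * (D - 1) ^ j) :=
        pow_le_pow_left₀ hu0.le hcon _
      rw [hupow] at h1
      have h2 := mul_le_mul_of_nonneg_left h1 (Real.exp_pos (-A)).le
      rw [← Real.exp_add] at h2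
      have h3 : -A + -(s - A) = -s := by ring
      rw [h3] at h2
      linarith
    refine (measure_mono hsub).trans ((measure_biUnion_finset_le _ _).trans ?_)
    calc ∑ y ∈ Y, volume (Metric.ball (0 : ℂ) R ∩ {x : ℂ | cd (x, 1) y < u})
        ≤ ∑ _y ∈ Y, ENNReal.ofReal (K * u ^ 2) :=
          Finset.sum_le_sum fun y hy => hK u hu0 y (hY2 y hy)
      _ = (Y.card : ℝ≥0∞) * ENNReal.ofReal (K * u ^ 2) := by
          rw [Finset.sum_const, nsmul_eq_mul]
      _ ≤ ENNReal.ofReal N * ENNReal.ofReal (K * u ^ 2) := by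
          refine mul_le_mul_left ?_ _
          rw [← ENNReal.ofReal_natCast]
          apply ENNReal.ofReal_le_ofReal
          rw [hN]
          exact_mod_cast hY1
      _ = ENNReal.ofReal (N * K * Real.exp (2 * A / e) * Real.exp (-(2 / e) * s)) := by
          rw [← ENNReal.ofReal_mul hN0.le]
          congr 1
          rw [hu, ← Real.exp_nat_mul, mul_assoc (N * K), ← Real.exp_add, mul_assoc]
          congr 3
          push_cast
          ring
  -- layer cake
  have hlc := lintegral_eq_lintegral_meas_lt (volume.restrict (Metric.ball (0 : ℂ) R))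
    (f := fun x : ℂ => |Real.log (cd (H^[j] (F₀ (x, 1))) z)|)
    (Eventually.of_forall fun x => abs_nonneg _) (hmeasf.log.abs.aemeasurable)
  rw [hlc]
  have hsplit : Ioi (0 : ℝ) = Ioc 0 s0 ∪ Ioi s0 := (Ioc_union_Ioi_eq_Ioi hs00.le).symm
  rw [hsplit, lintegral_union measurableSet_Ioi (Ioc_disjoint_Ioi le_rfl)]
  have hI1 : ∫⁻ s in Ioc 0 s0, (volume.restrict (Metric.ball (0 : ℂ) R))
      {x | s < |Real.log (cd (H^[j] (F₀ (x, 1))) z)|} ≤ ENNReal.ofReal (V * s0) := by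
    calc ∫⁻ s in Ioc 0 s0, (volume.restrict (Metric.ball (0 : ℂ) R))
            {x | s < |Real.log (cd (H^[j] (F₀ (x, 1))) z)|}
        ≤ ∫⁻ s in Ioc 0 s0, ENNReal.ofReal V := by
          refine lintegral_mono fun s => ?_
          refine (measure_mono (subset_univ _)).trans ?_
          rw [Measure.restrict_apply_univ]
          exact hVB
      _ = ENNReal.ofReal (V * s0) := by
          rw [setLIntegral_const, Real.volume_Ioc, sub_zero, ← ENNReal.ofReal_mul hV0]
  have hb : 0 < 2 / e := by positivity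
  have hI2 : ∫⁻ s in Ioi s0, (volume.restrict (Metric.ball (0 : ℂ) R))
      {x | s < |Real.log (cd (H^[j] (F₀ (x, 1))) z)|} ≤ ENNReal.ofReal (e / 2) := by
    refine (setLIntegral_mono' measurableSet_Ioi fun s hs => hdist s hs).trans ?_
    rw [tail (by positivity) hb]
    apply ENNReal.ofReal_le_ofReal
    have h1 : 2 * A / e + -(2 / e) * s0 = -(2 / e * Real.log 2) - Real.log N - K := by
      rw [hs0]
      field_simp
      ring
    have h2 : Real.exp (2 * A / e) * Real.exp (-(2 / e) * s0) ≤ N⁻¹ * Real.exp (-K) := by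
      rw [← Real.exp_add, h1]
      have h3 : N⁻¹ * Real.exp (-K) = Real.exp (-Real.log N - K) := by
        rw [sub_eq_add_neg, Real.exp_add, Real.exp_neg (Real.log N), Real.exp_log hN0]
      rw [h3]
      apply Real.exp_le_exp.2
      have : 0 < 2 / e * Real.log 2 := by positivity
      linarith
    have h4 : K * Real.exp (-K) ≤ 1 := by
      have h5 := Real.add_one_le_exp K
      rw [Real.exp_neg, ← div_eq_mul_inv, div_le_one (Real.exp_pos _)]
      linarith
    calc N * K * Real.exp (2 * A / e) * (Real.exp (-(2 / e) * s0) / (2 / e))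
        = N * K * (Real.exp (2 * A / e) * Real.exp (-(2 / e) * s0)) * (e / 2) := by
          field_simp
      _ ≤ N * K * (N⁻¹ * Real.exp (-K)) * (e / 2) := by gcongr
      _ = (K * Real.exp (-K)) * (e / 2) := by
          field_simp
      _ ≤ 1 * (e / 2) := by gcongr
      _ = e / 2 := one_mul _
  refine (add_le_add hI1 hI2).trans ?_
  rw [← ENNReal.ofReal_add (by positivity) (by positivity)]
  apply ENNReal.ofReal_le_ofReal
  rw [← hm, hs0]
  have hj : (0 : ℝ) ≤ j := Nat.cast_nonneg j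
  obtain ⟨ℓ, hℓ⟩ : ∃ ℓ : ℝ, ℓ = |Real.log (omh E z)| := ⟨_, rfl⟩
  have hℓ0 : 0 ≤ ℓ := by rw [hℓ]; positivity
  rw [← hℓ] at hA1 ⊢
  obtain ⟨W, hW⟩ : ∃ W : ℝ, W = (j + 1) * m + ℓ := ⟨_, rfl⟩
  have hm0 : 0 ≤ m := by linarith
  have hjm : 0 ≤ j * m := mul_nonneg hj hm0
  have hmW : m ≤ W := by
    rw [hW]
    linarith
  have h1W : 1 ≤ W := hm1.trans hmW
  have hlW : ℓ ≤ W := by rw [hW]; linarith
  have hW0 : 0 ≤ W := by linarith
  rw [← hW]
  have h5 : Real.log 2 + A + e / 2 * (Real.log N + K) ≤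
      (Real.log 2 + a + D + D₀ * (Real.log D + Real.log D₀ + K)) * W := by
    have h6 : Real.log 2 ≤ Real.log 2 * W := le_mul_of_one_le_right hl2.le h1W
    have h7 : A ≤ a * W + D * W := by
      have h8 := mul_le_mul_of_nonneg_left hmW ha0
      have h9 := mul_le_mul_of_nonneg_left hlW (by linarith : (0 : ℝ) ≤ D)
      linarith
    have h8 : e / 2 * (Real.log N + K) ≤ D₀ * (Real.log D + Real.log D₀ + K) * W := by
      rw [he, hlN]
      have h9 : m * (j * Real.log D) ≤ Real.log D * W := by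
        have h10 : m * j ≤ W := by rw [hW]; linarith
        calc m * (j * Real.log D) = Real.log D * (m * j) := by ring
          _ ≤ Real.log D * W := mul_le_mul_of_nonneg_left h10 hlD
      have h11 : m * Real.log D₀ ≤ Real.log D₀ * W := by
        rw [mul_comm]; exact mul_le_mul_of_nonneg_left hmW hlD₀
      have h12 : m * K ≤ K * W := by
        rw [mul_comm]; exact mul_le_mul_of_nonneg_left hmW hK0
      have h13 : m * (j * Real.log D + Real.log D₀ + K) ≤
          (Real.log D + Real.log D₀ + K) * W := by linarith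
      have h14 : 0 ≤ m * (j * Real.log D + Real.log D₀ + K) := by positivity
      have h15 := mul_le_mul_of_nonneg_left h13 (by linarith : (0 : ℝ) ≤ D₀)
      have h16 : 0 ≤ (D₀ : ℝ) * (m * (j * Real.log D + Real.log D₀ + K)) := by positivity
      have h17 : D₀ * m / 2 * (j * Real.log D + Real.log D₀ + K) =
          (D₀ : ℝ) * (m * (j * Real.log D + Real.log D₀ + K)) / 2 := by ring
      rw [h17]
      linarith
    have h9 : (Real.log 2 + a + D + D₀ * (Real.log D + Real.log D₀ + K)) * W =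
        Real.log 2 * W + (a * W + D * W) + D₀ * (Real.log D + Real.log D₀ + K) * W := by ring
    rw [h9]
    linarith
  have h6 : e / 2 ≤ D₀ * W := by
    rw [he]
    have h7 := mul_le_mul_of_nonneg_left hmW (by linarith : (0 : ℝ) ≤ D₀)
    have h8 : 0 ≤ (D₀ : ℝ) * m := by positivity
    linarith
  have h7 := mul_le_mul_of_nonneg_left h5 hV0
  have h8 : (V * (Real.log 2 + a + D + D₀ * (Real.log D + Real.log D₀ + K)) + D₀) * W =
      V * ((Real.log 2 + a + D + D₀ * (Real.log D + Real.log D₀ + K)) * W) + D₀ * W := by ring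
  rw [h8]
  linarith

end Pool.Agent.H63.UDB
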